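import Mathlib

set_option autoImplicit false

namespace Pool.Agent.H130R8

open Set Filter Topology

/-- null sequences, as a subspace of the continuous functions on the one point compactification -/
noncomputable def SC : Submodule ℝ C(OnePoint ℕ, ℝ) where
  carrier := {f | f OnePoint.infty = 0}
  add_mem' := by
    intro f g hf hg
    change f OnePoint.infty + g OnePoint.infty = 0
    rw [hf, hg, add_zero]
  zero_mem' := rfl
  smul_mem' := by
    intro c f hf
    change c * f OnePoint.infty = 0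
    rw [hf, mul_zero]

/-- The space `c_0`. -/
def C0 : Type := SC

noncomputable instance : NormedAddCommGroup C0 := inferInstanceAs (NormedAddCommGroup SC)

noncomputable instance : NormedSpace ℝ C0 := inferInstanceAs (NormedSpace ℝ SC)

lemma isClosed_SC : IsClosed (SC : Set C(OnePoint ℕ, ℝ)) := by
  have h : (SC : Set C(OnePoint ℕ, ℝ)) = (fun f : C(OnePoint ℕ, ℝ) => f OnePoint.infty) ⁻¹' {0} := by
    ext f; rfl
  rw [h]
  exact isClosed_singleton.preimage (continuous_eval_const OnePoint.infty)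

instance : CompleteSpace C0 := isClosed_SC.completeSpace_coe

/-- coordinates -/
def vl (f : C0) (k : ℕ) : ℝ := (Subtype.val f : C(OnePoint ℕ, ℝ)) (k : OnePoint ℕ)

lemma vl_add (f g : C0) (k : ℕ) : vl (f + g) k = vl f k + vl g k := rfl
lemma vl_sub (f g : C0) (k : ℕ) : vl (f - g) k = vl f k - vl g k := rfl
lemma vl_smul (c : ℝ) (f : C0) (k : ℕ) : vl (c • f) k = c * vl f k := rfl
lemma vl_zero (k : ℕ) : vl 0 k = 0 := rfl

lemma abs_le_norm (f : C0) (k : ℕ) : |vl f k| ≤ ‖f‖ :=
  ContinuousMap.norm_coe_le_norm (Subtype.val f : C(OnePoint ℕ, ℝ)) k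

lemma norm_le_iff (f : C0) (C : ℝ) : ‖f‖ ≤ C ↔ ∀ k, |vl f k| ≤ C := by
  constructor
  · intro h k
    exact (abs_le_norm f k).trans h
  · intro h
    have h1 : ∀ x : OnePoint ℕ, ‖(Subtype.val f : C(OnePoint ℕ, ℝ)) x‖ ≤ C := by
      intro x
      induction x using OnePoint.rec with
      | infty =>
        have h2 : (Subtype.val f : C(OnePoint ℕ, ℝ)) OnePoint.infty = 0 := Subtype.property f
        rw [h2, norm_zero]
        exact (abs_nonneg _).trans (h 0)
      | coe k => exact h k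
    exact (ContinuousMap.norm_le_of_nonempty (Subtype.val f : C(OnePoint ℕ, ℝ))).2 h1

lemma tendsto_vl (f : C0) : Tendsto (fun k => vl f k) atTop (𝓝 0) := by
  have h1 := (OnePoint.continuous_iff_from_nat _).1 (Subtype.val f : C(OnePoint ℕ, ℝ)).continuous
  have h2 : (Subtype.val f : C(OnePoint ℕ, ℝ)) OnePoint.infty = 0 := Subtype.property f
  rw [h2] at h1
  exact h1

/-- element of `c_0` from a null sequence -/
noncomputable def mkC0 (s : ℕ → ℝ) (h : Tendsto s atTop (𝓝 0)) : C0 :=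
  ⟨OnePoint.continuousMapMkNat s 0 h, rfl⟩

lemma vl_mk (s : ℕ → ℝ) (h : Tendsto s atTop (𝓝 0)) (k : ℕ) : vl (mkC0 s h) k = s k := rfl

lemma C0_ext {f g : C0} (h : ∀ k, vl f k = vl g k) : f = g := by
  rw [← sub_eq_zero, ← norm_le_zero_iff, norm_le_iff]
  intro k
  rw [vl_sub, h k, sub_self, abs_zero]

open Classical in
/-- unit vectors -/
noncomputable def ee (m : ℕ) : C0 := mkC0 (fun k => if k = m then 1 else 0) (by
  apply tendsto_const_nhds.congr'
  filter_upwards [eventually_gt_atTop m] with k hk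
  rw [if_neg (ne_of_gt hk)])

lemma vl_ee_self (m : ℕ) : vl (ee m) m = 1 := if_pos rfl
lemma vl_ee_ne (m : ℕ) {k : ℕ} (h : k ≠ m) : vl (ee m) k = 0 := if_neg h

open Classical in
/-- truncation -/
noncomputable def tr (M : ℕ) (x : C0) : C0 := mkC0 (fun k => if k < M then vl x k else 0) (by
  apply tendsto_const_nhds.congr'
  filter_upwards [eventually_ge_atTop M] with k hk
  rw [if_neg (not_lt.2 hk)])

lemma vl_tr_lt (M : ℕ) (x : C0) {k : ℕ} (h : k < M) : vl (tr M x) k = vl x k := if_pos h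
lemma vl_tr_ge (M : ℕ) (x : C0) {k : ℕ} (h : M ≤ k) : vl (tr M x) k = 0 := if_neg (not_lt.2 h)

lemma tendsto_tr (x : C0) : Tendsto (fun M => tr M x) atTop (𝓝 x) := by
  rw [Metric.tendsto_atTop]
  intro ε hε
  obtain ⟨n, hn⟩ := (Metric.tendsto_atTop.1 (tendsto_vl x)) (ε / 2) (by positivity)
  refine ⟨n, fun M hM => ?_⟩
  rw [dist_eq_norm]
  have : ‖tr M x - x‖ ≤ ε / 2 := by
    rw [norm_le_iff]
    intro k
    rw [vl_sub]
    by_cases hk : k < M
    · rw [vl_tr_lt M x hk, sub_self, abs_zero]; positivity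
    · push Not at hk
      rw [vl_tr_ge M x hk, zero_sub, abs_neg]
      have := hn k (hM.trans hk)
      rw [Real.dist_eq, sub_zero] at this
      exact this.le
  linarith

/-- finite sums of unit vectors -/
lemma vl_sum {ι : Type*} (s : Finset ι) (c : ι → ℝ) (a : ι → C0) (k : ℕ) :
    vl (∑ i ∈ s, c i • a i) k = ∑ i ∈ s, c i * vl (a i) k := by
  classical
  induction s using Finset.induction_on with
  | empty => simp [vl_zero]
  | insert i s hi ih => rw [Finset.sum_insert hi, Finset.sum_insert hi, vl_add, vl_smul, ih]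

lemma vl_sum_ee (s : Finset ℕ) (c : ℕ → ℝ) (k : ℕ) :
    vl (∑ i ∈ s, c i • ee i) k = if k ∈ s then c k else 0 := by
  classical
  rw [vl_sum]
  by_cases hk : k ∈ s
  · rw [if_pos hk, Finset.sum_eq_single k]
    · rw [vl_ee_self, mul_one]
    · intro b _ hb
      rw [vl_ee_ne b hb.symm, mul_zero]
    · intro h; exact absurd hk h
  · rw [if_neg hk, Finset.sum_eq_zero]
    intro b hb
    have : k ≠ b := by rintro rfl; exact hk hb
    rw [vl_ee_ne b this, mul_zero]

/-- absolute summability of the coefficients of a functional -/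
lemma sum_abs_le (f : C0 →L[ℝ] ℝ) (s : Finset ℕ) : ∑ i ∈ s, |f (ee i)| ≤ ‖f‖ := by
  classical
  set c : ℕ → ℝ := fun i => SignType.sign (f (ee i)) with hc
  have h1 : f (∑ i ∈ s, c i • ee i) = ∑ i ∈ s, |f (ee i)| := by
    rw [map_sum]
    refine Finset.sum_congr rfl fun i _ => ?_
    rw [map_smul, smul_eq_mul, hc]
    rcases lt_trichotomy (f (ee i)) 0 with h | h | h
    · simp [sign_neg h, abs_of_neg h]
    · simp [h]
    · simp [sign_pos h, abs_of_pos h]
  have h2 : ‖∑ i ∈ s, c i • ee i‖ ≤ 1 := by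
    rw [norm_le_iff]
    intro k
    rw [vl_sum_ee]
    by_cases hk : k ∈ s
    · rw [if_pos hk, hc]
      rcases lt_trichotomy (f (ee k)) 0 with h | h | h
      · simp [sign_neg h]
      · simp [h]
      · simp [sign_pos h]
    · rw [if_neg hk]; simp
  rw [← h1]
  calc f (∑ i ∈ s, c i • ee i) ≤ ‖f (∑ i ∈ s, c i • ee i)‖ := by
        rw [Real.norm_eq_abs]; exact le_abs_self _
    _ ≤ ‖f‖ * ‖∑ i ∈ s, c i • ee i‖ := f.le_opNorm _
    _ ≤ ‖f‖ * 1 := mul_le_mul_of_nonneg_left h2 (norm_nonneg _)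
    _ = ‖f‖ := mul_one _

lemma summable_coeff (f : C0 →L[ℝ] ℝ) : Summable fun i => |f (ee i)| :=
  summable_of_sum_le (fun i => abs_nonneg _) (fun s => sum_abs_le f s)

lemma tendsto_coeff (f : C0 →L[ℝ] ℝ) : Tendsto (fun m => f (ee m)) atTop (𝓝 0) := by
  have h := (summable_coeff f).tendsto_atTop_zero
  exact (tendsto_zero_iff_abs_tendsto_zero _).2 h

/-- blocks of ones -/
noncomputable def blk (n : ℕ) : C0 := ∑ i ∈ Finset.range n, (1 : ℝ) • ee i

lemma vl_blk (n k : ℕ) : vl (blk n) k = if k < n then 1 else 0 := by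
  classical
  unfold blk
  rw [vl_sum_ee (Finset.range n) (fun _ => 1) k]
  simp

lemma map_blk (f : C0 →L[ℝ] ℝ) (n : ℕ) : f (blk n) = ∑ i ∈ Finset.range n, f (ee i) := by
  unfold blk
  rw [map_sum]
  refine Finset.sum_congr rfl fun i _ => ?_
  rw [one_smul]

lemma tendsto_blk (f : C0 →L[ℝ] ℝ) :
    Tendsto (fun n => f (blk n)) atTop (𝓝 (∑' i, f (ee i))) := by
  have h : Summable fun i => f (ee i) := (summable_coeff f).of_abs
  have := h.hasSum.tendsto_sum_nat
  refine this.congr fun n => (map_blk f n).symm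

/-- sparse sets -/
def Sparse (A : Finset ℕ) : Prop := ∀ N : ℕ, 4 * (A.filter (· < N)).card ≤ N

lemma sparse_empty : Sparse ∅ := by intro N; simp

lemma sparse_insert (A : Finset ℕ) (hA : Sparse A) (m : ℕ) (hm : 4 * (A.card + 1) ≤ m) :
    Sparse (insert m A) := by
  classical
  intro N
  by_cases h : m < N
  · have h1 : ((insert m A).filter (· < N)).card ≤ A.card + 1 :=
      (Finset.card_le_card (Finset.filter_subset _ _)).trans (Finset.card_insert_le _ _)
    omega
  · have h1 : (insert m A).filter (· < N) = A.filter (· < N) := by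
      rw [Finset.filter_insert, if_neg h]
    rw [h1]
    exact hA N

/-- generators of the first kind: constant blocks plus sparse tails -/
def G1 : Set C0 := {x | ∃ (n : ℕ) (A : Finset ℕ) (σ : ℝ), |σ| ≤ 1 ∧ Sparse A ∧ (∀ m ∈ A, n ≤ m) ∧
  (∀ k, k < n → vl x k = σ) ∧ (∀ k, n ≤ k → k ∉ A → vl x k = 0) ∧ ∀ k ∈ A, |vl x k| ≤ 1}

/-- generators of the second kind: half of the unit ball plus sparse perturbations -/
def G2 : Set C0 := {x | ∃ A : Finset ℕ, Sparse A ∧ (∀ k, k ∉ A → |vl x k| ≤ 1 / 2) ∧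
  ∀ k ∈ A, |vl x k| ≤ 1}

/-- the generators -/
def GG : Set C0 := G1 ∪ G2

lemma GG_norm_le {x : C0} (hx : x ∈ GG) : ‖x‖ ≤ 1 := by
  rw [norm_le_iff]
  intro k
  rcases hx with ⟨n, A, σ, hσ, -, -, h1, h2, h3⟩ | ⟨A, -, h1, h2⟩
  · by_cases hk : k < n
    · rw [h1 k hk]; exact hσ
    · by_cases hA : k ∈ A
      · exact h3 k hA
      · rw [h2 k (not_lt.1 hk) hA]; simp
  · by_cases hA : k ∈ A
    · exact h2 k hA
    · exact (h1 k hA).trans (by norm_num)

lemma half_ball_subset {x : C0} (hx : ‖x‖ ≤ 1 / 2) : x ∈ GG :=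
  Or.inr ⟨∅, sparse_empty, fun k _ => (abs_le_norm x k).trans hx, fun k hk =>
    absurd hk (Finset.notMem_empty _)⟩

lemma GG_balanced : Balanced ℝ GG := by
  rw [balanced_iff_smul_mem]
  intro a ha x hx
  rw [Real.norm_eq_abs] at ha
  have hmul : ∀ (c r : ℝ), 0 ≤ c → |r| ≤ c → |a * r| ≤ c := by
    intro c r hc hr
    rw [abs_mul]
    calc |a| * |r| ≤ 1 * c := mul_le_mul ha hr (abs_nonneg _) zero_le_one
      _ = c := one_mul _
  rcases hx with ⟨n, A, σ, hσ, hA, hnA, h1, h2, h3⟩ | ⟨A, hA, h1, h2⟩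
  · left
    refine ⟨n, A, a * σ, hmul _ _ zero_le_one hσ, hA, hnA, ?_, ?_, ?_⟩
    · intro k hk; rw [vl_smul, h1 k hk]
    · intro k hk hkA; rw [vl_smul, h2 k hk hkA, mul_zero]
    · intro k hk; rw [vl_smul]; exact hmul _ _ zero_le_one (h3 k hk)
  · right
    refine ⟨A, hA, ?_, ?_⟩
    · intro k hk; rw [vl_smul]; exact hmul _ _ (by norm_num) (h1 k hk)
    · intro k hk; rw [vl_smul]; exact hmul _ _ zero_le_one (h2 k hk)

lemma blk_mem (n : ℕ) : blk n ∈ GG := by
  left
  refine ⟨n, ∅, 1, by simp, sparse_empty, by simp, ?_, ?_, by simp⟩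
  · intro k hk; rw [vl_blk, if_pos hk]
  · intro k hk _; rw [vl_blk, if_neg (not_lt.2 hk)]

lemma ee_add_mem {x : C0} (hx : x ∈ GG) (M : ℕ) (hM : ∀ k, M ≤ k → vl x k = 0) :
    ∀ᶠ m in atTop, ∀ θ : ℝ, |θ| ≤ 1 → x + θ • ee m ∈ GG := by
  classical
  rcases hx with ⟨n, A, σ, hσ, hA, hnA, h1, h2, h3⟩ | ⟨A, hA, h1, h2⟩
  · filter_upwards [eventually_ge_atTop n, eventually_ge_atTop M,
      eventually_ge_atTop (4 * (A.card + 1))] with m hm1 hm2 hm3
    intro θ hθ
    left
    have hval : ∀ k, k ≠ m → vl (x + θ • ee m) k = vl x k := by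
      intro k hk
      rw [vl_add, vl_smul, vl_ee_ne m hk, mul_zero, add_zero]
    have hvalm : vl (x + θ • ee m) m = θ := by
      rw [vl_add, vl_smul, vl_ee_self, mul_one, hM m hm2, zero_add]
    refine ⟨n, insert m A, σ, hσ, sparse_insert A hA m hm3, ?_, ?_, ?_, ?_⟩
    · intro k hk
      rcases Finset.mem_insert.1 hk with rfl | hk
      · exact hm1
      · exact hnA k hk
    · intro k hk
      rw [hval k (by omega), h1 k hk]
    · intro k hk hkA
      rw [Finset.mem_insert, not_or] at hkA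
      rw [hval k hkA.1, h2 k hk hkA.2]
    · intro k hk
      by_cases hkm : k = m
      · rw [hkm, hvalm]; exact hθ
      · rcases Finset.mem_insert.1 hk with rfl | hk
        · exact absurd rfl hkm
        · rw [hval k hkm]; exact h3 k hk
  · filter_upwards [eventually_ge_atTop M,
      eventually_ge_atTop (4 * (A.card + 1))] with m hm2 hm3
    intro θ hθ
    right
    have hval : ∀ k, k ≠ m → vl (x + θ • ee m) k = vl x k := by
      intro k hk
      rw [vl_add, vl_smul, vl_ee_ne m hk, mul_zero, add_zero]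
    have hvalm : vl (x + θ • ee m) m = θ := by
      rw [vl_add, vl_smul, vl_ee_self, mul_one, hM m hm2, zero_add]
    refine ⟨insert m A, sparse_insert A hA m hm3, ?_, ?_⟩
    · intro k hkA
      rw [Finset.mem_insert, not_or] at hkA
      rw [hval k hkA.1]; exact h1 k hkA.2
    · intro k hk
      by_cases hkm : k = m
      · rw [hkm, hvalm]; exact hθ
      · rcases Finset.mem_insert.1 hk with rfl | hk
        · exact absurd rfl hkm
        · rw [hval k hkm]; exact h2 k hk

/-- Each generator can be replaced by a finitely supported one in the same slice. -/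
lemma exists_fin {x : C0} (hx : x ∈ GG) (f : C0 →L[ℝ] ℝ) (a : ℝ) (ha : a < f x) :
    ∃ x' ∈ GG, a < f x' ∧ ∃ M, ∀ k, M ≤ k → vl x' k = 0 := by
  rcases hx with ⟨n, A, σ, hσ, hA, hnA, h1, h2, h3⟩ | ⟨A, hA, h1, h2⟩
  · refine ⟨x, Or.inl ⟨n, A, σ, hσ, hA, hnA, h1, h2, h3⟩, ha, max n (A.sup id + 1), ?_⟩
    intro k hk
    apply h2 k ((le_max_left _ _).trans hk)
    intro hkA
    have h4 : k ≤ A.sup id := Finset.le_sup (f := id) hkA
    have h5 := (le_max_right n (A.sup id + 1)).trans hk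
    omega
  · have h4 : Tendsto (fun M => f (tr M x)) atTop (𝓝 (f x)) :=
      (f.continuous.tendsto _).comp (tendsto_tr x)
    obtain ⟨M, hM⟩ := (h4.eventually (lt_mem_nhds ha)).exists
    refine ⟨tr M x, Or.inr ⟨A, hA, ?_, ?_⟩, hM, M, fun k hk => vl_tr_ge M x hk⟩
    · intro k hk
      by_cases hkM : k < M
      · rw [vl_tr_lt M x hkM]; exact h1 k hk
      · rw [vl_tr_ge M x (not_lt.1 hkM)]; simp
    · intro k hk
      by_cases hkM : k < M
      · rw [vl_tr_lt M x hkM]; exact h2 k hk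
      · rw [vl_tr_ge M x (not_lt.1 hkM)]; simp

lemma exists_shift {x : C0} (hx : x ∈ GG) (f : C0 →L[ℝ] ℝ) (a : ℝ) (ha : a < f x) :
    ∃ x' ∈ GG, a < f x' ∧ ∀ᶠ m in atTop, (x' + ee m ∈ GG ∧ x' - ee m ∈ GG) ∧
      (a < f (x' + ee m) ∧ a < f (x' - ee m)) := by
  obtain ⟨x', hx', hfx', M, hM⟩ := exists_fin hx f a ha
  refine ⟨x', hx', hfx', ?_⟩
  have h1 := ee_add_mem hx' M hM
  have h2 : Tendsto (fun m => f (x' + ee m)) atTop (𝓝 (f x')) := by
    have := (tendsto_coeff f).const_add (f x')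
    rw [add_zero] at this
    exact this.congr fun m => by rw [map_add]
  have h3 : Tendsto (fun m => f (x' - ee m)) atTop (𝓝 (f x')) := by
    have := (tendsto_coeff f).const_sub (f x')
    rw [sub_zero] at this
    exact this.congr fun m => by rw [map_sub]
  filter_upwards [h1, h2.eventually (lt_mem_nhds hfx'), h3.eventually (lt_mem_nhds hfx')]
    with m hm1 hm2 hm3
  refine ⟨⟨?_, ?_⟩, hm2, hm3⟩
  · have := hm1 1 (by simp)
    rwa [one_smul] at this
  · have := hm1 (-1) (by simp)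
    rwa [neg_smul, one_smul, ← sub_eq_add_neg] at this

end Pool.Agent.H130R8
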