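import Mathlib
import Pool.Agent.H130R8.SS1

set_option autoImplicit false

namespace Pool.Agent.H130R8

open Set Filter Topology

/-- A type synonym used for a renormed space. -/
def Ren (E : Type) : Type := E

instance (E : Type) [h : AddCommGroup E] : AddCommGroup (Ren E) := h

instance (E : Type) [AddCommGroup E] [h : Module ℝ E] : Module ℝ (Ren E) := h

/-- The identity as a linear equivalence. -/
def renEquiv (E : Type) [AddCommGroup E] [Module ℝ E] : Ren E ≃ₗ[ℝ] E := LinearEquiv.refl ℝ E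

theorem exists_renorm {E : Type} [NormedAddCommGroup E] [NormedSpace ℝ E] [CompleteSpace E]
    (N : Seminorm ℝ E) (c C : ℝ) (h1 : ∀ x, N x ≤ C * ‖x‖) (h2 : ∀ x, ‖x‖ ≤ c * N x) :
    ∃ (X : Type) (_ : NormedAddCommGroup X) (_ : NormedSpace ℝ X) (_ : CompleteSpace X)
      (ι : X ≃L[ℝ] E), ∀ x, ‖x‖ = N (ι x) := by
  let nrm : Norm (Ren E) := ⟨fun x => N (renEquiv E x)⟩
  have core : NormedSpace.Core ℝ (Ren E) :=
    { norm_nonneg := fun x => apply_nonneg N _
      norm_smul := fun r x => by
        change N (renEquiv E (r • x)) = ‖r‖ * N (renEquiv E x)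
        rw [map_smul, map_smul_eq_mul]
      norm_triangle := fun x y => by
        change N (renEquiv E (x + y)) ≤ N (renEquiv E x) + N (renEquiv E y)
        rw [map_add]
        exact map_add_le_add N _ _
      norm_eq_zero_iff := fun x => by
        change N (renEquiv E x) = 0 ↔ x = 0
        constructor
        · intro h
          have h3 := h2 (renEquiv E x)
          rw [h, mul_zero] at h3
          have h4 : renEquiv E x = 0 := norm_le_zero_iff.1 h3
          exact (renEquiv E).map_eq_zero_iff.1 h4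
        · rintro rfl
          rw [map_zero, map_zero] }
  let ng : NormedAddCommGroup (Ren E) := NormedAddCommGroup.ofCore core
  let ns : NormedSpace ℝ (Ren E) := NormedSpace.ofCore core
  have hn : ∀ x : Ren E, ‖x‖ = N (renEquiv E x) := fun x => rfl
  let ι : Ren E ≃L[ℝ] E := (renEquiv E).toContinuousLinearEquivOfBounds c C
    (fun x => by rw [hn]; exact h2 _) (fun x => by
      rw [hn, LinearEquiv.apply_symm_apply]; exact h1 _)
  have hcomp : CompleteSpace (Ren E) :=
    (completeSpace_congr (e := ι.toEquiv) ι.isUniformEmbedding).2 inferInstance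
  exact ⟨Ren E, ng, ns, hcomp, ι, fun x => rfl⟩

/-- The gauge norm of a balanced set of generators. -/
theorem exists_gauge {E : Type*} [NormedAddCommGroup E] [NormedSpace ℝ E]
    (G : Set E) (hG : Balanced ℝ G) (r R : ℝ) (hr : 0 < r) (hR : 0 < R)
    (hrG : Metric.closedBall (0 : E) r ⊆ G) (hGR : G ⊆ Metric.closedBall (0 : E) R) :
    ∃ N : Seminorm ℝ E, (∀ x, N x ≤ r⁻¹ * ‖x‖) ∧ (∀ x, ‖x‖ ≤ R * N x) ∧ (∀ g ∈ G, N g ≤ 1) ∧
      ∀ (f : E →L[ℝ] ℝ) (M : ℝ), 0 ≤ M → (∀ g ∈ G, f g ≤ M) → ∀ x, f x ≤ M * N x := by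
  set B : Set E := convexHull ℝ G with hB
  have hbal : Balanced ℝ B := hG.convexHull
  have hconv : Convex ℝ B := convex_convexHull _ _
  have hsub : Metric.closedBall (0 : E) r ⊆ B := hrG.trans (subset_convexHull _ _)
  have habs : Absorbent ℝ B :=
    absorbent_nhds_zero (Filter.mem_of_superset (Metric.closedBall_mem_nhds _ hr) hsub)
  have hsub2 : B ⊆ Metric.closedBall (0 : E) R := convexHull_min hGR (convex_closedBall _ _)
  have habs1 : Absorbent ℝ (Metric.closedBall (0 : E) r) :=
    absorbent_nhds_zero (Metric.closedBall_mem_nhds _ hr)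
  refine ⟨gaugeSeminorm hbal hconv habs, ?_, ?_, ?_, ?_⟩
  · intro x
    change gauge B x ≤ r⁻¹ * ‖x‖
    have h1 := gauge_mono habs1 hsub x
    rw [gauge_closedBall hr.le] at h1
    rwa [inv_mul_eq_div]
  · intro x
    change ‖x‖ ≤ R * gauge B x
    have h1 := gauge_mono habs hsub2 x
    rwa [gauge_closedBall hR.le, div_le_iff₀' hR] at h1
  · intro g hg
    change gauge B g ≤ 1
    apply gauge_le_of_mem zero_le_one
    exact ⟨g, subset_convexHull _ _ hg, by simp⟩
  · intro f M hM hf x
    change f x ≤ M * gauge B x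
    have hfB : ∀ y ∈ B, f y ≤ M := by
      have : B ⊆ {y | f y ≤ M} := by
        apply convexHull_min _ (convex_halfSpace_le f.toLinearMap.isLinear M)
        intro y hy
        exact hf y hy
      exact this
    have key : ∀ a, gauge B x < a → f x ≤ M * a := by
      intro a ha
      obtain ⟨b, hb0, hba, y, hy, rfl⟩ := exists_lt_of_gauge_lt habs ha
      have : f (b • y) = b * f y := by rw [map_smul, smul_eq_mul]
      simp only [this]
      calc b * f y ≤ b * M := mul_le_mul_of_nonneg_left (hfB y hy) hb0.le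
        _ ≤ a * M := mul_le_mul_of_nonneg_right hba.le hM
        _ = M * a := mul_comm _ _
    have hlim : Tendsto (fun a => M * a) (𝓝[>] (gauge B x)) (𝓝 (M * gauge B x)) :=
      (tendsto_const_nhds.mul tendsto_id).mono_left nhdsWithin_le_nhds
    refine ge_of_tendsto hlim ?_
    filter_upwards [self_mem_nhdsWithin] with a ha
    exact key a ha

/-- ultrafilter limit of a bounded sequence in the bidual -/
theorem exists_limit {E : Type*} [NormedAddCommGroup E] [NormedSpace ℝ E]
    (y : ℕ → E) (hy : ∀ n, ‖y n‖ ≤ 1) :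
    ∃ q : (E →L[ℝ] ℝ) →L[ℝ] ℝ, ‖q‖ ≤ 1 ∧ ∀ f : E →L[ℝ] ℝ,
      Tendsto (fun n => f (y n)) (hyperfilter ℕ : Filter ℕ) (𝓝 (q f)) := by
  have hex : ∀ f : E →L[ℝ] ℝ, ∃ l : ℝ, l ∈ Icc (-‖f‖) ‖f‖ ∧
      Tendsto (fun n => f (y n)) (hyperfilter ℕ : Filter ℕ) (𝓝 l) := by
    intro f
    have hmem : ∀ n, f (y n) ∈ Icc (-‖f‖) ‖f‖ := by
      intro n
      have h1 := f.le_opNorm (y n)
      rw [Real.norm_eq_abs] at h1
      have h2 : ‖f‖ * ‖y n‖ ≤ ‖f‖ := by
        calc ‖f‖ * ‖y n‖ ≤ ‖f‖ * 1 := mul_le_mul_of_nonneg_left (hy n) (norm_nonneg _)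
          _ = ‖f‖ := mul_one _
      exact abs_le.1 (h1.trans h2)
    obtain ⟨l, hl1, hl2⟩ := (isCompact_Icc (a := -‖f‖) (b := ‖f‖)).ultrafilter_le_nhds
      ((hyperfilter ℕ).map fun n => f (y n))
      (tendsto_principal.2 (Eventually.of_forall hmem))
    exact ⟨l, hl1, hl2⟩
  choose L hL1 hL2 using hex
  have hb : ∀ f : E →L[ℝ] ℝ, ‖L f‖ ≤ 1 * ‖f‖ := by
    intro f
    rw [one_mul, Real.norm_eq_abs, abs_le]
    exact hL1 f
  refine ⟨LinearMap.mkContinuous
    { toFun := L
      map_add' := fun f g => tendsto_nhds_unique (hL2 (f + g)) ((hL2 f).add (hL2 g))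
      map_smul' := fun c f => tendsto_nhds_unique (hL2 (c • f)) ((hL2 f).const_mul c) } 1
    hb, ?_, fun f => hL2 f⟩
  exact LinearMap.mkContinuous_norm_le _ zero_le_one hb

/-- sum of the first coordinates of a generator of the first kind -/
lemma sum_G1 {g : C0} {n : ℕ} {A : Finset ℕ} {σ : ℝ} (hσ : |σ| ≤ 1) (hA : Sparse A)
    (h1 : ∀ k, k < n → vl g k = σ) (h2 : ∀ k, n ≤ k → k ∉ A → vl g k = 0)
    (h3 : ∀ k ∈ A, |vl g k| ≤ 1) (N : ℕ) :
    (∑ k ∈ Finset.range N, vl g k ≤ n + (N : ℝ) / 4) ∧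
    (∑ k ∈ Finset.range N, vl g k ≤ σ * (min n N : ℕ) + (N - (min n N : ℕ))) := by
  classical
  obtain ⟨hσ1, hσ2⟩ := abs_le.1 hσ
  constructor
  · have hle : ∀ k ∈ Finset.range N, vl g k ≤
        (if k < n then (1 : ℝ) else 0) + (if k ∈ A then (1 : ℝ) else 0) := by
      intro k _
      by_cases hk : k < n
      · rw [if_pos hk, h1 k hk]
        have : (0 : ℝ) ≤ if k ∈ A then (1 : ℝ) else 0 := by split_ifs <;> norm_num
        linarith
      · rw [if_neg hk]
        by_cases hkA : k ∈ A
        · rw [if_pos hkA]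
          linarith [(abs_le.1 (h3 k hkA)).2]
        · rw [if_neg hkA, h2 k (not_lt.1 hk) hkA]; norm_num
    refine (Finset.sum_le_sum hle).trans ?_
    rw [Finset.sum_add_distrib]
    have e1 : ∑ k ∈ Finset.range N, (if k < n then (1 : ℝ) else 0) ≤ n := by
      rw [Finset.sum_ite, Finset.sum_const_zero, add_zero, Finset.sum_const, nsmul_eq_mul, mul_one]
      have : ((Finset.range N).filter (· < n)).card ≤ n := by
        calc ((Finset.range N).filter (· < n)).card ≤ (Finset.range n).card := by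
              apply Finset.card_le_card
              intro k hk
              rw [Finset.mem_filter] at hk
              exact Finset.mem_range.2 hk.2
          _ = n := Finset.card_range n
      exact_mod_cast this
    have e2 : ∑ k ∈ Finset.range N, (if k ∈ A then (1 : ℝ) else 0) ≤ (N : ℝ) / 4 := by
      rw [Finset.sum_ite, Finset.sum_const_zero, add_zero, Finset.sum_const, nsmul_eq_mul, mul_one]
      have h4 : ((Finset.range N).filter (· ∈ A)).card ≤ (A.filter (· < N)).card := by
        apply Finset.card_le_card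
        intro k hk
        rw [Finset.mem_filter, Finset.mem_range] at hk
        exact Finset.mem_filter.2 ⟨hk.2, hk.1⟩
      have h5 := hA N
      have h6 : 4 * ((Finset.range N).filter (· ∈ A)).card ≤ N := by omega
      have h7 : (4 : ℝ) * ((Finset.range N).filter (· ∈ A)).card ≤ N := by exact_mod_cast h6
      linarith
    linarith
  · have hle : ∀ k ∈ Finset.range N, vl g k ≤ (if k < n then σ else 1) := by
      intro k _
      by_cases hk : k < n
      · rw [if_pos hk, h1 k hk]
      · rw [if_neg hk]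
        by_cases hkA : k ∈ A
        · exact (abs_le.1 (h3 k hkA)).2
        · rw [h2 k (not_lt.1 hk) hkA]; norm_num
    refine (Finset.sum_le_sum hle).trans (le_of_eq ?_)
    rw [Finset.sum_ite, Finset.sum_const, Finset.sum_const, nsmul_eq_mul, nsmul_eq_mul, mul_one]
    have c1 : ((Finset.range N).filter (· < n)).card = min n N := by
      have : (Finset.range N).filter (· < n) = Finset.range (min n N) := by
        ext k
        rw [Finset.mem_filter, Finset.mem_range, Finset.mem_range]
        omega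
      rw [this, Finset.card_range]
    have c2 : ((Finset.range N).filter (fun k => ¬ k < n)).card = N - min n N := by
      have h8 := Finset.card_filter_add_card_filter_not (s := Finset.range N) (p := (· < n))
      rw [c1, Finset.card_range] at h8
      omega
    rw [c1, c2, Nat.cast_sub (min_le_right _ _)]
    ring

lemma sum_G2 {g : C0} {A : Finset ℕ} (hA : Sparse A)
    (h1 : ∀ k, k ∉ A → |vl g k| ≤ 1 / 2) (h2 : ∀ k ∈ A, |vl g k| ≤ 1) (N : ℕ) :
    ∑ k ∈ Finset.range N, vl g k ≤ (5 / 8) * N := by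
  classical
  have hle : ∀ k ∈ Finset.range N, vl g k ≤ 1 / 2 + (if k ∈ A then (1 / 2 : ℝ) else 0) := by
    intro k _
    by_cases hkA : k ∈ A
    · rw [if_pos hkA]
      linarith [(abs_le.1 (h2 k hkA)).2]
    · rw [if_neg hkA]
      linarith [(abs_le.1 (h1 k hkA)).2]
  refine (Finset.sum_le_sum hle).trans ?_
  rw [Finset.sum_add_distrib, Finset.sum_const, Finset.card_range, nsmul_eq_mul]
  have e2 : ∑ k ∈ Finset.range N, (if k ∈ A then (1 / 2 : ℝ) else 0) ≤ (N : ℝ) / 8 := by
    rw [Finset.sum_ite, Finset.sum_const_zero, add_zero, Finset.sum_const, nsmul_eq_mul]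
    have h4 : ((Finset.range N).filter (· ∈ A)).card ≤ (A.filter (· < N)).card := by
      apply Finset.card_le_card
      intro k hk
      rw [Finset.mem_filter, Finset.mem_range] at hk
      exact Finset.mem_filter.2 ⟨hk.2, hk.1⟩
    have h5 := hA N
    have h6 : 4 * ((Finset.range N).filter (· ∈ A)).card ≤ N := by omega
    have h7 : (4 : ℝ) * ((Finset.range N).filter (· ∈ A)).card ≤ N := by exact_mod_cast h6
    linarith
  linarith

/-- The main estimate. -/
lemma est (f : C0 →L[ℝ] ℝ) (hf : ∀ g ∈ GG, |f g| ≤ 1) (ε : ℝ) (hε : 0 < ε) :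
    ∃ N0 : ℕ, ∀ N : ℕ, N0 ≤ N → ∀ g ∈ GG,
      (N : ℝ)⁻¹ * (∑ k ∈ Finset.range N, vl g k) + (1 / 8) * f g ≤
        1 + (1 / 8) * ((∑' i, f (ee i)) + ε) := by
  classical
  set L : ℝ := ∑' i, f (ee i) with hL
  have hLlim := tendsto_blk f
  rw [← hL] at hLlim
  have hL1 : |L| ≤ 1 := le_of_tendsto' hLlim.abs (fun n => hf _ (blk_mem n))
  obtain ⟨hLa, hLb⟩ := abs_le.1 hL1
  obtain ⟨n0, hn0⟩ := (Metric.tendsto_atTop.1 hLlim) (ε / 2) (by positivity)
  obtain ⟨s, hs⟩ := (summable_iff_vanishing_norm.1 (summable_coeff f)) (ε / 2) (by positivity)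
  refine ⟨4 * max n0 (s.sup id + 1) + 1, fun N hN g hg => ?_⟩
  have hNpos : 0 < (N : ℝ) := by
    have : 0 < N := by omega
    exact_mod_cast this
  have hfg := hf g hg
  obtain ⟨hfa, hfb⟩ := abs_le.1 hfg
  rcases hg with ⟨n, A, σ, hσ, hA, hnA, h1, h2, h3⟩ | ⟨A, hA, h1, h2⟩
  · obtain ⟨b1, b2⟩ := sum_G1 hσ hA h1 h2 h3 N
    obtain ⟨hσ1, hσ2⟩ := abs_le.1 hσ
    by_cases hn : 4 * n ≤ N
    · have hn' : (4 : ℝ) * n ≤ N := by exact_mod_cast hn
      have : (N : ℝ)⁻¹ * (∑ k ∈ Finset.range N, vl g k) ≤ 1 / 2 := by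
        rw [inv_mul_le_iff₀ hNpos]
        linarith
      linarith
    · push Not at hn
      have hn1 : n0 ≤ n := by
        have := le_max_left n0 (s.sup id + 1)
        omega
      have hn2 : s.sup id + 1 ≤ n := by
        have := le_max_right n0 (s.sup id + 1)
        omega
      have hgdec : g = σ • blk n + ∑ m ∈ A, vl g m • ee m := by
        apply C0_ext
        intro k
        rw [vl_add, vl_smul, vl_blk, vl_sum_ee A (fun m => vl g m) k]
        by_cases hk : k < n
        · have hkA : k ∉ A := fun h => absurd (hnA k h) (not_le.2 hk)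
          rw [if_pos hk, if_neg hkA, h1 k hk]; ring
        · rw [if_neg hk]
          by_cases hkA : k ∈ A
          · rw [if_pos hkA]; ring
          · rw [if_neg hkA, h2 k (not_lt.1 hk) hkA]; ring
      have hfg2 : f g = σ * f (blk n) + ∑ m ∈ A, vl g m * f (ee m) := by
        conv_lhs => rw [hgdec]
        rw [map_add, map_smul, map_sum, smul_eq_mul]
        congr 1
        refine Finset.sum_congr rfl fun m _ => ?_
        rw [map_smul, smul_eq_mul]
      have hdisj : Disjoint A s := by
        rw [Finset.disjoint_left]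
        intro k hkA hks
        have h4 : k ≤ s.sup id := Finset.le_sup (f := id) hks
        have h5 := hnA k hkA
        omega
      have htail : ∑ m ∈ A, vl g m * f (ee m) ≤ ε / 2 := by
        have h6 := hs A hdisj
        rw [Real.norm_eq_abs] at h6
        calc ∑ m ∈ A, vl g m * f (ee m) ≤ ∑ m ∈ A, |f (ee m)| := by
              refine Finset.sum_le_sum fun m hm => ?_
              calc vl g m * f (ee m) ≤ |vl g m * f (ee m)| := le_abs_self _
                _ = |vl g m| * |f (ee m)| := abs_mul _ _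
                _ ≤ 1 * |f (ee m)| := mul_le_mul_of_nonneg_right (h3 m hm) (abs_nonneg _)
                _ = _ := one_mul _
          _ ≤ |∑ m ∈ A, (|f (ee m)|)| := le_abs_self _
          _ ≤ ε / 2 := h6.le
      have hblk : |f (blk n) - L| ≤ ε / 2 := by
        have := hn0 n hn1
        rw [Real.dist_eq] at this
        exact this.le
      have hσF : σ * f (blk n) ≤ σ * L + ε / 2 := by
        have h7 : σ * (f (blk n) - L) ≤ ε / 2 := by
          calc σ * (f (blk n) - L) ≤ |σ * (f (blk n) - L)| := le_abs_self _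
            _ = |σ| * |f (blk n) - L| := abs_mul _ _
            _ ≤ 1 * (ε / 2) := mul_le_mul hσ hblk (abs_nonneg _) zero_le_one
            _ = _ := one_mul _
        have : σ * (f (blk n) - L) = σ * f (blk n) - σ * L := by ring
        linarith
      -- the average
      set q : ℝ := ((min n N : ℕ) : ℝ) with hq
      have hqN : (1 / 4 : ℝ) * N ≤ q := by
        have h8 : N ≤ 4 * min n N := by omega
        have h9 : (N : ℝ) ≤ 4 * ((min n N : ℕ) : ℝ) := by exact_mod_cast h8
        rw [hq]; linarith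
      have hav : (N : ℝ)⁻¹ * (∑ k ∈ Finset.range N, vl g k) ≤ 1 - (1 - σ) * ((N : ℝ)⁻¹ * q) := by
        have h10 : (N : ℝ)⁻¹ * (∑ k ∈ Finset.range N, vl g k) ≤
            (N : ℝ)⁻¹ * (σ * q + (N - q)) :=
          mul_le_mul_of_nonneg_left b2 (by positivity)
        have h11 : (N : ℝ)⁻¹ * (σ * q + (N - q)) = 1 - (1 - σ) * ((N : ℝ)⁻¹ * q) := by
          field_simp
          ring
        linarith
      have ha : 1 / 4 ≤ (N : ℝ)⁻¹ * q := by
        rw [inv_mul_eq_div, le_div_iff₀ hNpos]; exact hqN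
      have hfin : 0 ≤ (1 - σ) * ((N : ℝ)⁻¹ * q + L / 8) :=
        mul_nonneg (by linarith) (by linarith)
      have hexp : (1 - σ) * ((N : ℝ)⁻¹ * q + L / 8) =
        (1 - σ) * ((N : ℝ)⁻¹ * q) + L / 8 - σ * L / 8 := by ring
      rw [hfg2]
      linarith
  · have b := sum_G2 hA h1 h2 N
    have : (N : ℝ)⁻¹ * (∑ k ∈ Finset.range N, vl g k) ≤ 5 / 8 := by
      rw [inv_mul_le_iff₀ hNpos]
      linarith
    linarith

end Pool.Agent.H130R8
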