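import Mathlib
import Pool.Agent.H130R8.SS1
import Pool.Agent.H130R8.SS2

set_option autoImplicit false

namespace Pool.Agent.H130R8

open Set Filter Topology

theorem main_space :
    ∃ (X : Type) (_ : NormedAddCommGroup X) (_ : NormedSpace ℝ X) (_ : CompleteSpace X),
      (∀ (n : ℕ) (f : Fin n → (X →L[ℝ] ℝ)) (α : Fin n → ℝ), (∀ i, ‖f i‖ = 1) → (∀ i, 0 < α i) →
        ∃ (x : Fin n → X) (y : X), ‖y‖ = 1 ∧ ∀ i,
          (‖x i‖ ≤ 1 ∧ 1 - α i < f i (x i)) ∧ (‖x i + y‖ ≤ 1 ∧ 1 - α i < f i (x i + y)) ∧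
          (‖x i - y‖ ≤ 1 ∧ 1 - α i < f i (x i - y))) ∧
      ∃ (u : (X →L[ℝ] ℝ) →L[ℝ] ℝ) (a : ℕ → (X →L[ℝ] ℝ)), ‖u‖ ≤ 1 ∧ (∀ n, ‖a n‖ ≤ 1) ∧
        (∀ n, u (a n) = 1) ∧
        ∀ (α : ℝ) (ψ : (X →L[ℝ] ℝ) →L[ℝ] ℝ), 0 < α → ‖ψ‖ ≤ 1 →
          (∀ᶠ n in (hyperfilter ℕ : Filter ℕ), 1 - α < ψ (a n)) → ‖ψ - u‖ ≤ 8 * α := by
  obtain ⟨N, hN1, hN2, hN3, hN4⟩ := exists_gauge GG GG_balanced (1 / 2) 1 (by norm_num) one_pos
    (fun x hx => half_ball_subset (by simpa using hx))
    (fun x hx => by simpa using GG_norm_le hx)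
  obtain ⟨X, i1, i2, i3, ι, hι⟩ := exists_renorm N 1 _ hN1 hN2
  have hsymm : ∀ y, ‖ι.symm y‖ = N y := fun y => by rw [hι, ι.apply_symm_apply]
  -- functionals of norm at most one are bounded by one on the generators
  have hfG : ∀ f : X →L[ℝ] ℝ, ‖f‖ ≤ 1 → ∀ g ∈ GG, |f (ι.symm g)| ≤ 1 := by
    intro f hf g hg
    have h1 := f.le_opNorm (ι.symm g)
    rw [Real.norm_eq_abs, hsymm] at h1
    exact h1.trans (mul_le_one₀ hf (apply_nonneg N g) (hN3 g hg))
  -- norm bound for functionals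
  have hfN : ∀ (f : X →L[ℝ] ℝ) (M : ℝ), 0 ≤ M → (∀ g ∈ GG, f (ι.symm g) ≤ M) → ‖f‖ ≤ M := by
    intro f M hM h
    have h2 := hN4 (f.comp (ι.symm : C0 →L[ℝ] X)) M hM h
    apply f.opNorm_le_bound hM
    intro x
    rw [Real.norm_eq_abs, abs_le, hι x]
    have h3 := h2 (ι x)
    have h4 := h2 (-ι x)
    have hNneg : N (-ι x) = N (ι x) := map_neg_eq_map N _
    rw [hNneg, map_neg] at h4
    have h5 : (f.comp (ι.symm : C0 →L[ℝ] X)) (ι x) = f x := by
      change f (ι.symm (ι x)) = f x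
      rw [ι.symm_apply_apply]
    rw [h5] at h3 h4
    constructor <;> linarith
  refine ⟨X, i1, i2, i3, ?_, ?_⟩
  · intro n f α hf hα
    have hex : ∀ i, ∃ x' ∈ GG, 1 - α i < (f i).comp (ι.symm : C0 →L[ℝ] X) x' ∧
        ∀ᶠ m in atTop, (x' + ee m ∈ GG ∧ x' - ee m ∈ GG) ∧
        (1 - α i < (f i).comp (ι.symm : C0 →L[ℝ] X) (x' + ee m) ∧
          1 - α i < (f i).comp (ι.symm : C0 →L[ℝ] X) (x' - ee m)) := by
      intro i
      have h1 : ∃ g ∈ GG, 1 - α i < f i (ι.symm g) := by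
        by_contra hcon
        push Not at hcon
        have h2 : ∀ g ∈ GG, f i (ι.symm g) ≤ max (1 - α i) (1 / 2) := fun g hg =>
          (hcon g hg).trans (le_max_left _ _)
        have h3 := hfN (f i) (max (1 - α i) (1 / 2)) (le_max_of_le_right (by norm_num)) h2
        rw [hf i] at h3
        rcases le_max_iff.1 h3 with h4 | h4
        · linarith [hα i]
        · norm_num at h4
      obtain ⟨g, hg, hfg⟩ := h1
      exact exists_shift hg ((f i).comp (ι.symm : C0 →L[ℝ] X)) (1 - α i) hfg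
    choose x' hx' hfx' hev using hex
    have hee : ∀ᶠ m in atTop, ee m ∈ GG := by
      have h0 : (0 : C0) ∈ GG := half_ball_subset (by rw [norm_zero]; norm_num)
      filter_upwards [ee_add_mem h0 0 (fun k _ => vl_zero k)] with m hm
      have := hm 1 (by simp)
      rwa [one_smul, zero_add] at this
    obtain ⟨m, hm, hmG⟩ := ((Filter.eventually_all.2 hev).and hee).exists
    refine ⟨fun i => ι.symm (x' i), ι.symm (ee m), ?_, ?_⟩
    · rw [hsymm]
      apply le_antisymm
      · exact hN3 _ hmG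
      · have h1 := hN2 (ee m)
        have h2 := abs_le_norm (ee m) m
        rw [vl_ee_self, abs_one] at h2
        linarith
    · intro i
      refine ⟨⟨?_, hfx' i⟩, ⟨?_, ?_⟩, ⟨?_, ?_⟩⟩
      · rw [hsymm]; exact hN3 _ (hx' i)
      · rw [← map_add, hsymm]; exact hN3 _ (hm i).1.1
      · rw [← map_add]; exact (hm i).2.1
      · rw [← map_sub, hsymm]; exact hN3 _ (hm i).1.2
      · rw [← map_sub]; exact (hm i).2.2
  · -- the averages
    have havg : ∀ n : ℕ, ∃ a : X →L[ℝ] ℝ, ‖a‖ ≤ 1 ∧ ∀ y : C0, a (ι.symm y) =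
        ((n : ℝ) + 1)⁻¹ * ∑ k ∈ Finset.range (n + 1), vl y k := by
      intro n
      let a0 : C0 →ₗ[ℝ] ℝ :=
        { toFun := fun y => ((n : ℝ) + 1)⁻¹ * ∑ k ∈ Finset.range (n + 1), vl y k
          map_add' := by
            intro x y
            rw [← mul_add, ← Finset.sum_add_distrib]
            rfl
          map_smul' := by
            intro c x
            change ((n : ℝ) + 1)⁻¹ * ∑ k ∈ Finset.range (n + 1), c * vl x k = _
            rw [← Finset.mul_sum]
            simp only [RingHom.id_apply, smul_eq_mul]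
            ring }
      have hb : ∀ y : C0, ‖a0 y‖ ≤ 1 * ‖y‖ := by
        intro y
        change ‖((n : ℝ) + 1)⁻¹ * ∑ k ∈ Finset.range (n + 1), vl y k‖ ≤ _
        rw [norm_mul, norm_inv, Real.norm_of_nonneg (by positivity : (0 : ℝ) ≤ (n : ℝ) + 1),
          inv_mul_le_iff₀ (by positivity)]
        calc ‖∑ k ∈ Finset.range (n + 1), vl y k‖ ≤ ∑ k ∈ Finset.range (n + 1), ‖vl y k‖ :=
              norm_sum_le _ _
          _ ≤ ∑ k ∈ Finset.range (n + 1), ‖y‖ := Finset.sum_le_sum fun k _ => abs_le_norm y k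
          _ = ((n : ℝ) + 1) * (1 * ‖y‖) := by
              rw [Finset.sum_const, Finset.card_range, nsmul_eq_mul]; push_cast; ring
      set a1 : C0 →L[ℝ] ℝ := LinearMap.mkContinuous a0 1 hb with ha1
      refine ⟨a1.comp (ι : X →L[ℝ] C0), ?_, ?_⟩
      · apply hfN _ 1 zero_le_one
        intro g hg
        change a1 (ι (ι.symm g)) ≤ 1
        rw [ι.apply_symm_apply]
        have h1 : a1 g ≤ 1 * ‖g‖ := (le_abs_self _).trans (hb g)
        linarith [GG_norm_le hg]
      · intro y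
        change a1 (ι (ι.symm y)) = _
        rw [ι.apply_symm_apply]
        rfl
    choose a ha1 ha2 using havg
    obtain ⟨u, hu1, hu2⟩ := exists_limit (fun n => ι.symm (blk n)) (fun n => by
      rw [hsymm]; exact hN3 _ (blk_mem n))
    have hle : (hyperfilter ℕ : Filter ℕ) ≤ atTop := by
      rw [← Nat.cofinite_eq_atTop]; exact hyperfilter_le_cofinite
    -- value of u
    have huL : ∀ f : X →L[ℝ] ℝ, u f = ∑' i, f (ι.symm (ee i)) := by
      intro f
      have h1 := (tendsto_blk (f.comp (ι.symm : C0 →L[ℝ] X))).mono_left hle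
      exact tendsto_nhds_unique (hu2 f) h1
    have hua : ∀ n, u (a n) = 1 := by
      intro n
      refine tendsto_nhds_unique (hu2 (a n)) ?_
      have hev : ∀ᶠ m in atTop, (a n) (ι.symm (blk m)) = 1 := by
        filter_upwards [eventually_ge_atTop (n + 1)] with m hm
        rw [ha2]
        have : ∑ k ∈ Finset.range (n + 1), vl (blk m) k = (n : ℝ) + 1 := by
          rw [Finset.sum_congr rfl (fun k hk => by
            rw [vl_blk, if_pos (lt_of_lt_of_le (Finset.mem_range.1 hk) hm)])]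
          rw [Finset.sum_const, Finset.card_range, nsmul_eq_mul, mul_one]; push_cast; ring
        rw [this, inv_mul_cancel₀ (by positivity)]
      exact (tendsto_const_nhds.congr' (hev.mono fun m hm => hm.symm)).mono_left hle
    refine ⟨u, a, hu1, ha1, hua, ?_⟩
    · intro α ψ hα hψ hΦψ
      -- one-sided estimate
      have hone : ∀ f : X →L[ℝ] ℝ, ‖f‖ ≤ 1 → ψ f - u f ≤ 8 * α := by
        intro f hf
        apply le_of_forall_pos_le_add
        intro ε hε
        obtain ⟨N0, hN0⟩ := est (f.comp (ι.symm : C0 →L[ℝ] X)) (hfG f hf) ε hε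
        have hev1 : ∀ᶠ n in (hyperfilter ℕ : Filter ℕ), 1 - α < ψ (a n) := hΦψ
        have hev2 : ∀ᶠ n in (hyperfilter ℕ : Filter ℕ), N0 ≤ n := hle (eventually_ge_atTop N0)
        obtain ⟨n, hn1, hn2⟩ := (hev1.and hev2).exists
        have hL : (∑' i, (f.comp (ι.symm : C0 →L[ℝ] X)) (ee i)) = u f := (huL f).symm
        have hu0 : -1 ≤ u f := by
          have h1 := u.le_opNorm f
          rw [Real.norm_eq_abs] at h1
          have h2 : ‖u‖ * ‖f‖ ≤ 1 := mul_le_one₀ hu1 (norm_nonneg _) hf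
          exact (abs_le.1 (h1.trans h2)).1
        have hnorm : ‖a n + (1 / 8 : ℝ) • f‖ ≤ 1 + (1 / 8) * (u f + ε) := by
          apply hfN _ _ (by linarith)
          intro g hg
          have h1 := hN0 (n + 1) (by omega) g hg
          rw [hL] at h1
          have h2 : (a n + (1 / 8 : ℝ) • f) (ι.symm g) = a n (ι.symm g) + (1 / 8) * f (ι.symm g) :=
            rfl
          rw [h2, ha2]
          push_cast at h1
          exact h1
        have h3 : ψ (a n + (1 / 8 : ℝ) • f) ≤ ‖a n + (1 / 8 : ℝ) • f‖ := by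
          have h4 := ψ.le_opNorm (a n + (1 / 8 : ℝ) • f)
          rw [Real.norm_eq_abs] at h4
          calc ψ (a n + (1 / 8 : ℝ) • f) ≤ |ψ (a n + (1 / 8 : ℝ) • f)| := le_abs_self _
            _ ≤ ‖ψ‖ * ‖a n + (1 / 8 : ℝ) • f‖ := h4
            _ ≤ 1 * ‖a n + (1 / 8 : ℝ) • f‖ := mul_le_mul_of_nonneg_right hψ (norm_nonneg _)
            _ = _ := one_mul _
        rw [map_add, map_smul, smul_eq_mul] at h3
        linarith
      apply ContinuousLinearMap.opNorm_le_of_unit_norm (by positivity)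
      intro f hf
      rw [Real.norm_eq_abs, abs_le]
      have h1 := hone f hf.le
      have h2 := hone (-f) (by rw [norm_neg]; exact hf.le)
      rw [map_neg, map_neg] at h2
      have h3 : (ψ - u) f = ψ f - u f := rfl
      rw [h3]
      constructor <;> linarith

end Pool.Agent.H130R8
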